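import Mathlib

set_option autoImplicit false

namespace Pool.Agent.Helper74.DF

open Matrix

/-! ### pairs in a group -/

section pairs
variable {G : Type*} [Group G]
/-- the move `(A,B) ↦ (A, A⁻¹B)` -/
def mvT (p : G × G) : G × G := (p.1, p.1⁻¹ * p.2)
/-- the move `(A,B) ↦ (B, A⁻¹)` -/
def mvS (p : G × G) : G × G := (p.2, p.1⁻¹)
/-- simultaneous conjugacy: `p = g q g⁻¹` -/
def Cj (p q : G × G) : Prop := ∃ g : G, p.1 = g * q.1 * g⁻¹ ∧ p.2 = g * q.2 * g⁻¹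
/-- the row group `⟨A, B⁻¹AB⟩` -/
def rowG (p : G × G) : Subgroup G := Subgroup.closure {p.1, p.2⁻¹ * p.1 * p.2}
/-- the group `⟨A, B⟩` -/
def genG (p : G × G) : Subgroup G := Subgroup.closure {p.1, p.2}
end pairs

section good
variable {ι : Type} [Fintype ι] [DecidableEq ι] {K : Type} [Field K]

/-- virtually unipotent -/
def VU (H : Subgroup (GL ι K)) : Prop :=
  ∃ H' : Subgroup (GL ι K), H' ≤ H ∧ H'.relIndex H ≠ 0 ∧
    ∀ g ∈ H', ((g : Matrix ι ι K) - 1) ^ Fintype.card ι = 0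

/-- the hypothesis of the analysis theorem -/
structure Good (S : Set (GL ι K × GL ι K)) : Prop where
  fin : S.Finite
  tT : ∀ p ∈ S, ∃ q ∈ S, Cj (mvT p) q
  tS : ∀ p ∈ S, ∃ q ∈ S, Cj (mvS p) q
  row : ∀ p ∈ S, VU (rowG p)

end good

/-- ANALYSIS THEOREM, archimedean half -/
def ST_ATC : Prop :=
  ∀ (ι : Type) [Fintype ι] [DecidableEq ι] (S : Set (GL ι ℂ × GL ι ℂ)), Good S →
    ∀ p ∈ S, ∀ w ∈ genG p, ∀ μ : ℂ, (w : Matrix ι ι ℂ).charpoly.IsRoot μ → ‖μ‖ = 1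

/-- ANALYSIS THEOREM, nonarchimedean half -/
def ST_ATP : Prop :=
  ∀ (q : ℕ) [Fact q.Prime] (ι : Type) [Fintype ι] [DecidableEq ι]
    (S : Set (GL ι (PadicAlgCl q) × GL ι (PadicAlgCl q))), Good S →
    ∀ p ∈ S, ∀ w ∈ genG p, ∀ i : ℕ, ‖(w : Matrix ι ι (PadicAlgCl q)).charpoly.coeff i‖ ≤ 1

/-! ### monomial elements (wreath product) -/

/-- monomial elements: `(w f)(x) = c x • f (s x)` -/
@[ext] structure Mon (X F : Type) where
  c : X → F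
  s : Equiv.Perm X

namespace Mon
variable {X F F' : Type} [Group F] [Group F']

instance : Mul (Mon X F) := ⟨fun a b => ⟨fun x => a.c x * b.c (a.s x), a.s.trans b.s⟩⟩
instance : One (Mon X F) := ⟨⟨fun _ => 1, Equiv.refl X⟩⟩
instance : Inv (Mon X F) := ⟨fun a => ⟨fun x => (a.c (a.s.symm x))⁻¹, a.s.symm⟩⟩

@[simp] lemma mul_c (a b : Mon X F) (x : X) : (a * b).c x = a.c x * b.c (a.s x) := rfl
@[simp] lemma mul_s (a b : Mon X F) : (a * b).s = a.s.trans b.s := rfl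
@[simp] lemma one_c (x : X) : (1 : Mon X F).c x = 1 := rfl
@[simp] lemma one_s : (1 : Mon X F).s = Equiv.refl X := rfl
@[simp] lemma inv_c (a : Mon X F) (x : X) : (a⁻¹).c x = (a.c (a.s.symm x))⁻¹ := rfl
@[simp] lemma inv_s (a : Mon X F) : (a⁻¹).s = a.s.symm := rfl

instance : Group (Mon X F) where
  mul_assoc a b c := by
    refine Mon.ext ?_ ?_
    · funext x; simp [mul_assoc]
    · rfl
  one_mul a := by
    refine Mon.ext ?_ ?_
    · funext x; simp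
    · rfl
  mul_one a := by
    refine Mon.ext ?_ ?_
    · funext x; simp
    · rfl
  inv_mul_cancel a := by
    refine Mon.ext ?_ ?_
    · funext x; simp
    · simp

/-- functoriality in the group -/
def map (f : F →* F') : Mon X F →* Mon X F' where
  toFun a := ⟨fun x => f (a.c x), a.s⟩
  map_one' := by
    refine Mon.ext ?_ ?_
    · funext x; simp
    · rfl
  map_mul' a b := by
    refine Mon.ext ?_ ?_
    · funext x; simp
    · rfl

@[simp] lemma map_c (f : F →* F') (a : Mon X F) (x : X) : (map f a).c x = f (a.c x) := rfl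
@[simp] lemma map_s (f : F →* F') (a : Mon X F) : (map f a).s = a.s := rfl

end Mon

/-- apply a homomorphism to a pair of monomial elements -/
def mapP {X F F' : Type} [Group F] [Group F'] (f : F →* F') (p : Mon X F × Mon X F) :
    Mon X F' × Mon X F' := (Mon.map f p.1, Mon.map f p.2)

/-- the standard proper free factor of corank one, moved by an automorphism -/
def FF {n : ℕ} (σ : FreeGroup (Fin n) ≃* FreeGroup (Fin n)) (j : Fin n) :
    Subgroup (FreeGroup (Fin n)) :=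
  Subgroup.closure ((fun k => σ (FreeGroup.of k)) '' {k : Fin n | k ≠ j})

/-- the combinatorial input -/
structure AlgData (n : ℕ) (X : Type)
    (S : Set (Mon X (FreeGroup (Fin n)) × Mon X (FreeGroup (Fin n)))) : Prop where
  fin : S.Finite
  tT : ∀ p ∈ S, ∃ q ∈ S, ∃ σ : FreeGroup (Fin n) ≃* FreeGroup (Fin n),
    Cj (mvT p) (mapP σ.toMonoidHom q)
  tS : ∀ p ∈ S, ∃ q ∈ S, ∃ σ : FreeGroup (Fin n) ≃* FreeGroup (Fin n),
    Cj (mvS p) (mapP σ.toMonoidHom q)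
  row : ∀ p ∈ S, ∀ x : X, ∃ (σ : FreeGroup (Fin n) ≃* FreeGroup (Fin n)) (j : Fin n),
    ∀ w ∈ rowG p, w.s = Equiv.refl X → w.c x ∈ FF σ j
  tr : ∃ p ∈ S, ∃ x : X, ∀ u : FreeGroup (Fin n), ∃ k : ℕ, 0 < k ∧ ∃ v ∈ genG p,
    v.s = Equiv.refl X ∧ v.c x = u ^ k

/-! ### statements of the modules -/

/-- the finite set of pairs for `n = 3` -/
def ST_N3 : Prop := ∃ S, AlgData 3 (Fin 4) S

/-- shifts of the grid -/
def sh {N : ℕ} (e : ZMod N × ZMod N) : Equiv.Perm (ZMod N × ZMod N) := Equiv.addRight e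

abbrev Gr (N : ℕ) := ZMod N × ZMod N

/-- an `F`-valued connection on the `N × N` torus grid which is flat off `P` -/
structure FlatOff {N : ℕ} {F : Type} [Group F] (P : Finset (Gr N)) (p : Mon (Gr N) F × Mon (Gr N) F) :
    Prop where
  sA : p.1.s = sh (1, 0)
  sB : p.2.s = sh (0, 1)
  flat : ∀ x, x ∉ P → (p.1 * p.2 * p.1⁻¹ * p.2⁻¹).c x = 1

/-- gauge equivalence `p = g q g⁻¹` -/
def Gg {X F : Type} [Group F] (p q : Mon X F × Mon X F) : Prop :=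
  ∃ g : X → F, p.1 = ⟨g, Equiv.refl X⟩ * q.1 * (⟨g, Equiv.refl X⟩ : Mon X F)⁻¹ ∧
    p.2 = ⟨g, Equiv.refl X⟩ * q.2 * (⟨g, Equiv.refl X⟩ : Mon X F)⁻¹

/-- universal connection of type `P` with values in `F_n` -/
structure Std {N n : ℕ} (P : Finset (Gr N))
    (c : Mon (Gr N) (FreeGroup (Fin n)) × Mon (Gr N) (FreeGroup (Fin n))) : Prop where
  flat : FlatOff P c
  univ : ∀ (Γ : Type) [Group Γ] (p : Mon (Gr N) Γ × Mon (Gr N) Γ), FlatOff P p →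
    ∃ f : FreeGroup (Fin n) →* Γ, Gg p (mapP f c)
  uniq : ∀ (Γ : Type) [Group Γ] (f f' : FreeGroup (Fin n) →* Γ), Gg (mapP f c) (mapP f' c) →
    ∃ g : Γ, ∀ u, f u = g * f' u * g⁻¹
  row0 : ∃ j : Fin n, ∀ i : ZMod N, c.1.c (i, 1) ∈ FF (MulEquiv.refl _) j ∧
    (c.2.c (i, 0))⁻¹ * c.1.c (i, 0) * c.2.c (i + 1, 0) ∈ FF (MulEquiv.refl _) j
  tr : ∀ u : FreeGroup (Fin n), ∃ v ∈ genG c, v.s = Equiv.refl _ ∧ v.c (0, 0) = u

/-- existence of universal connections -/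
def ST_STD : Prop := ∀ (N n : ℕ), 2 ≤ N → ∀ P : Finset (Gr N), P.card + 1 = n →
  (∃ x ∈ P, x.2 ≠ 0) → ∃ c : Mon (Gr N) (FreeGroup (Fin n)) × Mon (Gr N) (FreeGroup (Fin n)), Std P c

/-- relabelling of the grid -/
def rl {N : ℕ} {F : Type} [Group F] (L : Equiv.Perm (Gr N)) (p : Mon (Gr N) F × Mon (Gr N) F) :
    Mon (Gr N) F × Mon (Gr N) F :=
  ((⟨fun _ => 1, L⟩ : Mon (Gr N) F) * p.1 * (⟨fun _ => 1, L⟩ : Mon (Gr N) F)⁻¹,
   (⟨fun _ => 1, L⟩ : Mon (Gr N) F) * p.2 * (⟨fun _ => 1, L⟩ : Mon (Gr N) F)⁻¹)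

/-- `(i,j) ↦ (i-j,j)` -/
def LT (N : ℕ) : Equiv.Perm (Gr N) where
  toFun x := (x.1 - x.2, x.2)
  invFun x := (x.1 + x.2, x.2)
  left_inv x := by simp
  right_inv x := by simp

/-- `(i,j) ↦ (-j,i)` -/
def LS (N : ℕ) : Equiv.Perm (Gr N) where
  toFun x := (-x.2, x.1)
  invFun x := (x.2, -x.1)
  left_inv x := by simp
  right_inv x := by simp

/-- the marks after the moves -/
def PT {N : ℕ} (L : Equiv.Perm (Gr N)) (P : Finset (Gr N)) : Finset (Gr N) :=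
  P.map ((sh (1, 0)).trans L.symm).toEmbedding

/-- moves on universal connections -/
def ST_MOVE : Prop := ∀ (N n : ℕ), 2 ≤ N →
  ∀ (P : Finset (Gr N)) (c : Mon (Gr N) (FreeGroup (Fin n)) × Mon (Gr N) (FreeGroup (Fin n))), Std P c →
  (∀ c' : Mon (Gr N) (FreeGroup (Fin n)) × Mon (Gr N) (FreeGroup (Fin n)), Std (PT (LT N) P) c' →
    ∃ σ : FreeGroup (Fin n) ≃* FreeGroup (Fin n), Cj (mvT c) (mapP σ.toMonoidHom c')) ∧
  (∀ c' : Mon (Gr N) (FreeGroup (Fin n)) × Mon (Gr N) (FreeGroup (Fin n)), Std (PT (LS N) P) c' →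
    ∃ σ : FreeGroup (Fin n) ≃* FreeGroup (Fin n), Cj (mvS c) (mapP σ.toMonoidHom c')) ∧
  (∀ (t : Gr N) (c' : Mon (Gr N) (FreeGroup (Fin n)) × Mon (Gr N) (FreeGroup (Fin n))),
    Std (P.map (sh (-t)).toEmbedding) c' →
    ∃ σ : FreeGroup (Fin n) ≃* FreeGroup (Fin n), Gg (rl (sh t) c) (mapP σ.toMonoidHom c'))

/-- the marks are not contained in a coset of a cyclic subgroup -/
def NL {N : ℕ} (P : Finset (Gr N)) : Prop :=
  ¬ ∃ v w : Gr N, ∀ x ∈ P, ∃ k : ℤ, x = w + k • v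

/-- rows -/
def ST_ROW : Prop := ∀ (N n : ℕ), 2 ≤ N →
  ∀ (P : Finset (Gr N)) (c : Mon (Gr N) (FreeGroup (Fin n)) × Mon (Gr N) (FreeGroup (Fin n))),
    Std P c → P.card + 1 = n → NL P →
  ∀ x : Gr N, ∃ (σ : FreeGroup (Fin n) ≃* FreeGroup (Fin n)) (j : Fin n),
    ∀ w ∈ rowG c, w.s = Equiv.refl _ → w.c x ∈ FF σ j

/-- the finite set of pairs for `n ≥ 4` -/
def ST_GRID : Prop := ∀ n : ℕ, 4 ≤ n → ∃ (N : ℕ) (_ : 2 ≤ N) (S : _), AlgData n (Gr N) S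

/-- the representation of monomial elements attached to `ρ` -/
def ST_REP : Prop := ∀ (X F ι K : Type) [Fintype X] [DecidableEq X] [Group F] [Fintype ι] [DecidableEq ι]
  [Field K] (ρ : F →* GL ι K), ∃ Φ : Mon X F →* GL (X × ι) K, ∀ (a : Mon X F) (x y : X) (i j : ι),
    (Φ a : Matrix (X × ι) (X × ι) K) (x, i) (y, j) =
      if y = a.s x then (ρ (a.c x) : Matrix ι ι K) i j else 0

/-- from the combinatorial data to `Good` and back to eigenvalues -/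
def ST_GOOD : Prop := ∀ (n d : ℕ) (X : Type) [Fintype X] [DecidableEq X]
  (S : Set (Mon X (FreeGroup (Fin n)) × Mon X (FreeGroup (Fin n)))), AlgData n X S →
  ∀ ρ : FreeGroup (Fin n) →* GL (Fin d) ℂ,
  (∀ σ : FreeGroup (Fin n) ≃* FreeGroup (Fin n), ∃ g : GL (Fin d) ℂ, ∀ u, ρ (σ u) = g * ρ u * g⁻¹) →
  (∃ N : Subgroup (FreeGroup (Fin n)), N.Normal ∧ N.FiniteIndex ∧
      ∀ (σ : FreeGroup (Fin n) ≃* FreeGroup (Fin n)) (j : Fin n), ∀ w ∈ N, w ∈ FF σ j →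
        ((ρ w : Matrix (Fin d) (Fin d) ℂ) - 1) ^ d = 0) →
  ∃ (S' : Set (GL (X × Fin d) ℂ × GL (X × Fin d) ℂ)), Good S' ∧
    ∃ p ∈ S', ∀ u : FreeGroup (Fin n), ∃ k : ℕ, 0 < k ∧ ∃ w ∈ genG p,
      ∀ μ : ℂ, (ρ u : Matrix (Fin d) (Fin d) ℂ).charpoly.IsRoot μ →
        (w : Matrix (X × Fin d) (X × Fin d) ℂ).charpoly.IsRoot (μ ^ k)

/-- field homomorphisms preserve `Good` -/
def ST_MAPG : Prop := ∀ (K L ι : Type) [Field K] [Field L] [Fintype ι] [DecidableEq ι] (θ : K →+* L)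
  (S : Set (GL ι K × GL ι K)), Good S →
  Good ((fun p : GL ι K × GL ι K => (Matrix.GeneralLinearGroup.map θ p.1, Matrix.GeneralLinearGroup.map θ p.2)) '' S)

/-- extension of embeddings of countable domains -/
def ST_EXT : Prop := ∀ (R K L : Type) [CommRing R] [IsDomain R] [Countable R] [Field K] [Field L]
  [IsAlgClosed K] [IsAlgClosed L] (_ : Nonempty (K ≃ L)) (_ : Uncountable K)
  (f : R →+* K) (g : R →+* L), Function.Injective f → Function.Injective g →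
  ∃ θ : K ≃+* L, ∀ r, θ (f r) = g r

/-- cardinality of the algebraic closure of `ℚ_p` -/
def ST_CARD : Prop := ∀ (q : ℕ) [Fact q.Prime], Nonempty (ℂ ≃ PadicAlgCl q)

/-- number theory: Kronecker over all places -/
def ST_NUM : Prop := ∀ f : Polynomial ℂ, f.Monic →
  (∀ (θ : ℂ →+* ℂ) (μ : ℂ), (f.map θ).IsRoot μ → ‖μ‖ = 1) →
  (∀ (q : ℕ) [Fact q.Prime] (θ : ℂ →+* PadicAlgCl q) (i : ℕ), ‖(f.map θ).coeff i‖ ≤ 1) →
  ∀ μ : ℂ, f.IsRoot μ → ∃ m : ℕ, 0 < m ∧ μ ^ m = 1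

/-- a representation with simple closure does not have all eigenvalues roots of unity -/
def ST_UNI : Prop := ∀ (n d : ℕ) (ρ : FreeGroup (Fin n) →* Matrix.SpecialLinearGroup (Fin d) ℂ)
    (Z : Set (Matrix (Fin d) (Fin d) ℂ)),
    (∀ M : Matrix (Fin d) (Fin d) ℂ, M ∈ Z ↔
      ∀ p : MvPolynomial (Fin d × Fin d) ℂ,
        (∀ x : FreeGroup (Fin n),
          MvPolynomial.eval
            (fun ij : Fin d × Fin d => (ρ x : Matrix (Fin d) (Fin d) ℂ) ij.1 ij.2) p = 0) →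
        MvPolynomial.eval (fun ij : Fin d × Fin d => M ij.1 ij.2) p = 0) →
    (∀ p q : MvPolynomial (Fin d × Fin d) ℂ,
      (∀ M ∈ Z, MvPolynomial.eval (fun ij : Fin d × Fin d => M ij.1 ij.2) (p * q) = 0) →
      (∀ M ∈ Z, MvPolynomial.eval (fun ij : Fin d × Fin d => M ij.1 ij.2) p = 0) ∨
      (∀ M ∈ Z, MvPolynomial.eval (fun ij : Fin d × Fin d => M ij.1 ij.2) q = 0)) →
    (∃ A ∈ Z, ∃ B ∈ Z, A * B ≠ B * A) →
    (∀ H : Set (Matrix (Fin d) (Fin d) ℂ), H ⊆ Z →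
      (1 : Matrix (Fin d) (Fin d) ℂ) ∈ H →
      (∀ A ∈ H, ∀ B ∈ H, A * B ∈ H) →
      (∀ A ∈ H, A⁻¹ ∈ H) →
      (∀ A ∈ Z, ∀ B ∈ H, A * B * A⁻¹ ∈ H) →
      (∀ M : Matrix (Fin d) (Fin d) ℂ,
        (∀ p : MvPolynomial (Fin d × Fin d) ℂ,
          (∀ B ∈ H, MvPolynomial.eval (fun ij : Fin d × Fin d => B ij.1 ij.2) p = 0) →
          MvPolynomial.eval (fun ij : Fin d × Fin d => M ij.1 ij.2) p = 0) → M ∈ H) →
      (∀ p q : MvPolynomial (Fin d × Fin d) ℂ,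
        (∀ B ∈ H, MvPolynomial.eval (fun ij : Fin d × Fin d => B ij.1 ij.2) (p * q) = 0) →
        (∀ B ∈ H, MvPolynomial.eval (fun ij : Fin d × Fin d => B ij.1 ij.2) p = 0) ∨
        (∀ B ∈ H, MvPolynomial.eval (fun ij : Fin d × Fin d => B ij.1 ij.2) q = 0)) →
      H = {1} ∨ H = Z) →
    (∀ u : FreeGroup (Fin n), ∀ μ : ℂ, (ρ u : Matrix (Fin d) (Fin d) ℂ).charpoly.IsRoot μ →
      ∃ m : ℕ, 0 < m ∧ μ ^ m = 1) → False

end Pool.Agent.Helper74.DF
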