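import Pool.Agent.Helper69.DF.VirtUnip
import Pool.Agent.Helper74.DF.AlgDefs

set_option autoImplicit false

namespace Pool.Agent.Helper74.DF

open Matrix

/-- charpoly of an element mapped by a field homomorphism -/
lemma fin_map_charpoly {K L ι : Type} [Field K] [Field L] [Fintype ι] [DecidableEq ι] (θ : K →+* L)
    (w : GL ι K) : ((Matrix.GeneralLinearGroup.map θ w : GL ι L) : Matrix ι ι L).charpoly =
      ((w : Matrix ι ι K).charpoly).map θ := by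
  rw [← Matrix.charpoly_map]
  rfl

lemma fin_map_gen {K L ι : Type} [Field K] [Field L] [Fintype ι] [DecidableEq ι] (θ : K →+* L)
    (p : GL ι K × GL ι K) {w : GL ι K} (hw : w ∈ genG p) :
    Matrix.GeneralLinearGroup.map θ w ∈
      genG (Matrix.GeneralLinearGroup.map θ p.1, Matrix.GeneralLinearGroup.map θ p.2) := by
  have h : Matrix.GeneralLinearGroup.map θ w ∈ (genG p).map (Matrix.GeneralLinearGroup.map (n := ι) θ) :=
    ⟨w, hw, rfl⟩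
  rw [genG, MonoidHom.map_closure, Set.image_pair] at h
  exact h

theorem fin_roots (hATC : ST_ATC) (hATP : ST_ATP) (hMAPG : ST_MAPG) (hNUM : ST_NUM)
    (ι : Type) [Fintype ι] [DecidableEq ι] (S : Set (GL ι ℂ × GL ι ℂ)) (hS : Good S)
    (p : GL ι ℂ × GL ι ℂ) (hp : p ∈ S) (w : GL ι ℂ) (hw : w ∈ genG p) (μ : ℂ)
    (hμ : (w : Matrix ι ι ℂ).charpoly.IsRoot μ) : ∃ m : ℕ, 0 < m ∧ μ ^ m = 1 := by
  refine hNUM _ (Matrix.charpoly_monic _) ?_ ?_ μ hμ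
  · intro θ ν hν
    refine hATC ι _ (hMAPG ℂ ℂ ι θ S hS) _ ⟨p, hp, rfl⟩ _ (fin_map_gen θ p hw) ν ?_
    rw [fin_map_charpoly]
    exact hν
  · intro q _ θ i
    have := hATP q ι _ (hMAPG ℂ (PadicAlgCl q) ι θ S hS) _ ⟨p, hp, rfl⟩ _ (fin_map_gen θ p hw) i
    rw [fin_map_charpoly] at this
    exact this

theorem fin_main (hATC : ST_ATC) (hATP : ST_ATP) (hMAPG : ST_MAPG) (hNUM : ST_NUM)
    (hN3 : ST_N3) (hGRID : ST_GRID) (hGOOD : ST_GOOD) (hUNI : ST_UNI)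
    (n d : ℕ) (hn : 3 ≤ n)
    (ρ : FreeGroup (Fin n) →* Matrix.SpecialLinearGroup (Fin d) ℂ)
    (Z : Set (Matrix (Fin d) (Fin d) ℂ))
    (hZ : ∀ M : Matrix (Fin d) (Fin d) ℂ, M ∈ Z ↔
      ∀ p : MvPolynomial (Fin d × Fin d) ℂ,
        (∀ x : FreeGroup (Fin n),
          MvPolynomial.eval
            (fun ij : Fin d × Fin d => (ρ x : Matrix (Fin d) (Fin d) ℂ) ij.1 ij.2) p = 0) →
        MvPolynomial.eval (fun ij : Fin d × Fin d => M ij.1 ij.2) p = 0)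
    (hconn : ∀ p q : MvPolynomial (Fin d × Fin d) ℂ,
      (∀ M ∈ Z, MvPolynomial.eval (fun ij : Fin d × Fin d => M ij.1 ij.2) (p * q) = 0) →
      (∀ M ∈ Z, MvPolynomial.eval (fun ij : Fin d × Fin d => M ij.1 ij.2) p = 0) ∨
      (∀ M ∈ Z, MvPolynomial.eval (fun ij : Fin d × Fin d => M ij.1 ij.2) q = 0))
    (hnc : ∃ A ∈ Z, ∃ B ∈ Z, A * B ≠ B * A)
    (hsimple : ∀ H : Set (Matrix (Fin d) (Fin d) ℂ), H ⊆ Z →
      (1 : Matrix (Fin d) (Fin d) ℂ) ∈ H →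
      (∀ A ∈ H, ∀ B ∈ H, A * B ∈ H) →
      (∀ A ∈ H, A⁻¹ ∈ H) →
      (∀ A ∈ Z, ∀ B ∈ H, A * B * A⁻¹ ∈ H) →
      (∀ M : Matrix (Fin d) (Fin d) ℂ,
        (∀ p : MvPolynomial (Fin d × Fin d) ℂ,
          (∀ B ∈ H, MvPolynomial.eval (fun ij : Fin d × Fin d => B ij.1 ij.2) p = 0) →
          MvPolynomial.eval (fun ij : Fin d × Fin d => M ij.1 ij.2) p = 0) → M ∈ H) →
      (∀ p q : MvPolynomial (Fin d × Fin d) ℂ,
        (∀ B ∈ H, MvPolynomial.eval (fun ij : Fin d × Fin d => B ij.1 ij.2) (p * q) = 0) →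
        (∀ B ∈ H, MvPolynomial.eval (fun ij : Fin d × Fin d => B ij.1 ij.2) p = 0) ∨
        (∀ B ∈ H, MvPolynomial.eval (fun ij : Fin d × Fin d => B ij.1 ij.2) q = 0)) →
      H = {1} ∨ H = Z) :
    ∃ σ : FreeGroup (Fin n) ≃* FreeGroup (Fin n),
      ∀ g : Matrix.SpecialLinearGroup (Fin d) ℂ,
        ∃ x : FreeGroup (Fin n), ρ (σ x) ≠ g * ρ x * g⁻¹ := by
  by_contra hcon
  push Not at hcon
  have hchar : ∀ σ : FreeGroup (Fin n) ≃* FreeGroup (Fin n),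
      ∃ g : Matrix.SpecialLinearGroup (Fin d) ℂ,
        ∀ x : FreeGroup (Fin n), ρ (σ x) = g * ρ x * g⁻¹ := hcon
  -- P1
  have hP1 : ∃ N : Subgroup (FreeGroup (Fin n)), N.Normal ∧ N.FiniteIndex ∧
      ∀ (σ : FreeGroup (Fin n) ≃* FreeGroup (Fin n)) (j : Fin n),
        ∀ w ∈ N, w ∈ FF σ j → ((ρ w : Matrix (Fin d) (Fin d) ℂ) - 1) ^ d = 0 := by
    obtain ⟨N, hN, hN', h⟩ := Pool.Agent.Helper69.DF.exists_unip_subgroup ρ
    refine ⟨N, hN, hN', ?_⟩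
    intro σ j w hw hwj
    refine h w hw fun ζ hζ => ?_
    refine Pool.Agent.Helper69.DF.eig_root_of_unity (by simpa using hn) ρ Z hZ hconn hnc hsimple hchar
      σ.symm j ?_ ζ hζ
    have h1 : FF σ j = (Pool.Agent.Helper69.DF.Gj j).map σ.toMonoidHom := by
      rw [Pool.Agent.Helper69.DF.Gj, MonoidHom.map_closure, Set.image_image]
      rfl
    rw [h1] at hwj
    obtain ⟨u, hu, rfl⟩ := hwj
    have h2 : σ.symm (σ.toMonoidHom u) = u := σ.symm_apply_apply u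
    rw [h2]
    exact hu
  -- the representation in GL
  let ρ' : FreeGroup (Fin n) →* GL (Fin d) ℂ := Matrix.SpecialLinearGroup.toGL.comp ρ
  have hρ' : ∀ u, ((ρ' u : GL (Fin d) ℂ) : Matrix (Fin d) (Fin d) ℂ) = (ρ u : Matrix (Fin d) (Fin d) ℂ) :=
    fun u => rfl
  have hchar' : ∀ σ : FreeGroup (Fin n) ≃* FreeGroup (Fin n), ∃ g : GL (Fin d) ℂ,
      ∀ u, ρ' (σ u) = g * ρ' u * g⁻¹ := by
    intro σ
    obtain ⟨g, hg⟩ := hchar σ
    refine ⟨Matrix.SpecialLinearGroup.toGL g, fun u => ?_⟩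
    change Matrix.SpecialLinearGroup.toGL (ρ (σ u)) = _
    rw [hg u, map_mul, map_mul, map_inv]
    rfl
  have key : ∀ (X : Type) [Fintype X] [DecidableEq X]
      (S : Set (Mon X (FreeGroup (Fin n)) × Mon X (FreeGroup (Fin n)))), AlgData n X S → False := by
    intro X _ _ S hS
    obtain ⟨S', hS', p, hp, hu⟩ := hGOOD n d X S hS ρ' hchar' hP1
    refine hUNI n d ρ Z hZ hconn hnc hsimple ?_
    intro u μ hμ
    obtain ⟨k, hk, w, hw, hroot⟩ := hu u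
    obtain ⟨m, hm, hm1⟩ := fin_roots hATC hATP hMAPG hNUM _ S' hS' p hp w hw _ (hroot μ hμ)
    exact ⟨k * m, Nat.mul_pos hk hm, by rw [pow_mul, hm1]⟩
  rcases Nat.lt_or_ge n 4 with h4 | h4
  · have h3 : n = 3 := by omega
    subst h3
    obtain ⟨S, hS⟩ := hN3
    exact key (Fin 4) S hS
  · obtain ⟨N, hN2, S, hS⟩ := hGRID n h4
    haveI : NeZero N := ⟨by omega⟩
    exact key (Gr N) S hS

end Pool.Agent.Helper74.DF
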